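import Pool.Agent.H637R4.PO.Fin
import Pool.Agent.Y736.RN.K

set_option autoImplicit false

/-! # The area of the points which have not escaped after `n` steps -/

namespace Pool.Agent.R721.Fat

open Complex Filter Topology Set Metric MeasureTheory Pool.Agent.H713R2 N62a1eb23
open Pool.Agent.H712R2 (P fc)
open Pool.Agent.Y736.RN

variable {d : ℕ} {ψ : ℂ → ℂ} {c : ℂ}

/-- the area of the points which have not left the disc of radius five after `n` steps -/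
noncomputable def area (d : ℕ) (c : ℂ) (n : ℕ) : ℝ :=
  (volume {z : ℂ | ‖(fc d c)^[n] z‖ ≤ 5}).toReal

theorem norm_le (hd : 2 ≤ d) (hc : c ∈ multibrotSet d) : ‖c‖ ≤ 2 :=
  Pool.Agent.H637R4.PO.t_NRM d hd c hc

theorem grow (hd : 2 ≤ d) (hc : ‖c‖ ≤ 2) {z : ℂ} (hz : 5 < ‖z‖) (n : ℕ) :
    5 < ‖(fc d c)^[n] z‖ := by
  induction n with
  | zero => simpa using hz
  | succ n ih =>
    rw [Function.iterate_succ_apply']
    set w := (fc d c)^[n] z
    have h1 : ‖w‖ ^ 2 ≤ ‖w‖ ^ d := pow_le_pow_right₀ (by linarith) hd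
    have h2 := norm_sub_le (w ^ d + c) c
    rw [add_sub_cancel_right, norm_pow] at h2
    show 5 < ‖w ^ d + c‖
    nlinarith

theorem vol_ne (hd : 2 ≤ d) (hc : ‖c‖ ≤ 2) (n : ℕ) :
    volume {z : ℂ | ‖(fc d c)^[n] z‖ ≤ 5} ≠ ⊤ := by
  have hsub : {z : ℂ | ‖(fc d c)^[n] z‖ ≤ 5} ⊆ closedBall 0 5 := by
    intro z hz
    rw [mem_closedBall_zero_iff]
    by_contra hcon
    exact absurd hz (not_le.2 (grow hd hc (not_le.1 hcon) n))
  exact ne_top_of_le_ne_top (measure_closedBall_lt_top (x := (0:ℂ)) (r := 5)).ne (measure_mono hsub)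

theorem area_ge (hd : 2 ≤ d) (hc : ‖c‖ ≤ 2) {s : ℝ} {n : ℕ}
    (hs : (d:ℝ) ^ n * s ≤ Real.log (5 / 4)) :
    Pool.Agent.H637R4.PO.Ar d c s ≤ area d c n := by
  unfold Pool.Agent.H637R4.PO.Ar area
  refine ENNReal.toReal_mono (vol_ne hd hc n) (measure_mono ?_)
  intro z hz
  have hz' : Pool.Agent.H713R2.AR.green d c z ≤ s := hz
  have h1 := Pool.Agent.H713R2.AR.norm_iter_le hd (A := 2) (by norm_num) hc z n
  have hdn : (0:ℝ) ≤ (d:ℝ) ^ n := by positivity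
  have h2 : (d:ℝ) ^ n * Pool.Agent.H713R2.AR.green d c z ≤ Real.log (5 / 4) :=
    (mul_le_mul_of_nonneg_left hz' hdn).trans hs
  have h3 := Real.exp_le_exp.2 h2
  rw [Real.exp_log (by norm_num)] at h3
  show ‖(fc d c)^[n] z‖ ≤ 5
  linarith

theorem log54 : 0 < Real.log (5 / 4) ∧ Real.log (5 / 4) ≤ 1 / 4 := by
  constructor
  · exact Real.log_pos (by norm_num)
  · have := Real.log_le_sub_one_of_pos (show (0:ℝ) < 5 / 4 by norm_num)
    linarith

/-- **Slow escape of the area** at parameters where Green's function of the connectedness locus is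
small. -/
theorem area_lower (hd : 2 ≤ d) (hψ : IsExteriorMap (multibrotSet d) ψ) (hc : c ∈ multibrotSet d)
    {κ a : ℝ} (hκ : 0 < κ) (ha : Real.log d / κ < a) (hB : ¬ Big ψ κ c) :
    ∀ᶠ n : ℕ in atTop, Real.exp (-(a * n)) < area d c n := by
  have hdR : (1 : ℝ) < d := by exact_mod_cast (by omega : 1 < d)
  have hd0 : (0:ℝ) < d := by linarith
  have hlogd : 0 < Real.log d := Real.log_pos hdR
  obtain ⟨hη0, hη1⟩ := log54
  obtain ⟨η, hη⟩ : ∃ η, η = Real.log (5 / 4) := ⟨_, rfl⟩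
  rw [← hη] at hη0 hη1
  have hc2 := norm_le hd hc
  have h1 : ∀ᶠ r : ℝ in 𝓝[>] 0, ∀ w : ℂ, 1 < ‖w‖ → ‖ψ w - c‖ ≤ r → Real.log ‖w‖ < η * r ^ κ := by
    by_contra hcon
    apply hB
    rw [not_eventually] at hcon
    refine ⟨η, hη0, hcon.mono fun r hr => ?_⟩
    push Not at hr
    obtain ⟨w, hw1, hw2, hw3⟩ := hr
    exact ⟨w, hw1, hw2, hw3⟩
  -- the scales
  obtain ⟨L, hL⟩ : ∃ L, L = Real.log d / κ := ⟨_, rfl⟩
  have hL0 : 0 < L := by rw [hL]; positivity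
  have hr : Tendsto (fun n : ℕ => Real.exp (-(L * n))) atTop (𝓝[>] 0) := by
    apply tendsto_nhdsWithin_of_tendsto_nhds_of_eventually_within
    · exact Real.tendsto_exp_atBot.comp (tendsto_neg_atTop_atBot.comp
        (tendsto_natCast_atTop_atTop.const_mul_atTop hL0))
    · exact Filter.Eventually.of_forall fun n => Real.exp_pos _
  have h2 := hr.eventually h1
  have hpow : ∀ n : ℕ, Real.exp (-(L * n)) ^ κ = ((d:ℝ) ^ n)⁻¹ := by
    intro n
    rw [← Real.exp_mul, ← Real.exp_log (show (0:ℝ) < ((d:ℝ) ^ n)⁻¹ by positivity)]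
    congr 1
    rw [Real.log_inv, Real.log_pow, hL]
    field_simp
  have hE : Pool.Agent.H637R4.PO.Ext (multibrotSet d) ψ := ⟨hψ.diff, hψ.inj, hψ.image, hψ.infinity⟩
  obtain ⟨C, hC⟩ : ∃ C, C = Pool.Agent.H637R4.PO.Cd d := ⟨_, rfl⟩
  have hC0 : 0 < C := by
    rw [hC]
    unfold Pool.Agent.H637R4.PO.Cd
    positivity
  have h3 : ∀ᶠ n : ℕ in atTop, Real.log C < (a - L) * n := by
    have h4 : 0 < a - L := by rw [hL]; linarith
    exact (tendsto_natCast_atTop_atTop.const_mul_atTop h4).eventually_gt_atTop _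
  filter_upwards [h2, h3] with n hn1 hn2
  rw [hpow] at hn1
  have hdn : (1:ℝ) ≤ (d:ℝ) ^ n := one_le_pow₀ hdR.le
  have hdn0 : (0:ℝ) < (d:ℝ) ^ n := by linarith
  obtain ⟨s, hs⟩ : ∃ s, s = 2 * (η * ((d:ℝ) ^ n)⁻¹) := ⟨_, rfl⟩
  have hinv : ((d:ℝ) ^ n)⁻¹ ≤ 1 := inv_le_one_of_one_le₀ hdn
  have hinv0 : 0 < ((d:ℝ) ^ n)⁻¹ := by positivity
  have hx : η * ((d:ℝ) ^ n)⁻¹ ≤ 1 / 4 := by nlinarith
  have hx0 : 0 < η * ((d:ℝ) ^ n)⁻¹ := by positivity
  have hbnd : Pool.Agent.H637R4.PO.Bnd ψ c (Real.exp (-(L * n))) s := by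
    intro w hw hwb
    rw [mem_ball, dist_eq_norm] at hwb
    have h5 := hn1 w hw hwb.le
    have hw0 : 0 < ‖w‖ := by linarith
    have h6 : ‖w‖ < Real.exp (η * ((d:ℝ) ^ n)⁻¹) := by
      rwa [Real.log_lt_iff_lt_exp hw0] at h5
    have h7 : Real.exp (η * ((d:ℝ) ^ n)⁻¹) ≤ 1 + 2 * (η * ((d:ℝ) ^ n)⁻¹) := by
      have h8 := Real.abs_exp_sub_one_le (x := η * ((d:ℝ) ^ n)⁻¹) (by
        rw [abs_of_pos hx0]; linarith)
      rw [abs_of_pos hx0] at h8
      have h9 := (abs_le.1 h8).2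
      linarith
    rw [hs]
    linarith
  have h5 := Pool.Agent.H637R4.PO.f_AREA d hd ψ hE c hc (Real.exp (-(L * n))) s (Real.exp_pos _)
    (by rw [hs]; positivity) (by rw [hs]; linarith) hbnd
  rw [← hC] at h5
  have h6 : Pool.Agent.H637R4.PO.Ar d c (s / d) ≤ area d c n := by
    apply area_ge hd hc2
    rw [hs, ← hη]
    have h7 : (d:ℝ) ^ n * (2 * (η * ((d:ℝ) ^ n)⁻¹) / d) = 2 * η / d := by
      field_simp
    rw [h7, div_le_iff₀ hd0]
    have : (2:ℝ) ≤ d := by exact_mod_cast hd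
    nlinarith
  have h7 : Real.exp (-(L * n)) ≤ C * area d c n :=
    h5.trans (mul_le_mul_of_nonneg_left h6 hC0.le)
  have h8 : C * Real.exp (-(a * n)) < Real.exp (-(L * n)) := by
    have h9 : C * Real.exp (-(a * n)) = Real.exp (Real.log C + -(a * n)) := by
      rw [Real.exp_add, Real.exp_log hC0]
    rw [h9, Real.exp_lt_exp]
    nlinarith
  exact lt_of_mul_lt_mul_left (h8.trans_le h7) hC0.le

theorem big_of_area (hd : 2 ≤ d) (hψ : IsExteriorMap (multibrotSet d) ψ) (hc : c ∈ multibrotSet d)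
    {κ a : ℝ} (hκ : 0 < κ) (ha : Real.log d / κ < a)
    (h : ∃ᶠ n : ℕ in atTop, area d c n ≤ Real.exp (-(a * n))) : Big ψ κ c := by
  by_contra hB
  obtain ⟨n, h1, h2⟩ := (h.and_eventually (area_lower hd hψ hc hκ ha hB)).exists
  linarith

/-- **The dimension of the renormalizable parameters with exponential escape of the area.** -/
theorem dim_area (hd : 2 ≤ d) {p : ℕ} (hp : 1 ≤ p) {a : ℝ} (ha : 0 < a) :
    dimH {c | Ren d c p ∧ ∃ᶠ n : ℕ in atTop, area d c n ≤ Real.exp (-(a * n))} ≤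
      ENNReal.ofReal (Real.log d / (p * a)) := by
  obtain ⟨β, hβ⟩ := exists_beta (d := d) hd
  have hψ := exteriorMap_of_beta hβ
  have hdR : (1 : ℝ) < d := by exact_mod_cast (by omega : 1 < d)
  have hlogd : 0 < Real.log d := Real.log_pos hdR
  have hpR : (0 : ℝ) < p := by exact_mod_cast hp
  have h1 : Tendsto (fun t : ℝ => ENNReal.ofReal (Real.log d / (a * t) / p)) (𝓝[<] 1)
      (𝓝 (ENNReal.ofReal (Real.log d / (a * 1) / p))) := by
    apply ENNReal.tendsto_ofReal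
    refine Tendsto.div_const ?_ _
    refine (tendsto_const_nhds.div (tendsto_id.const_mul _) ?_).mono_left nhdsWithin_le_nhds
    positivity
  have h2 : Real.log d / (a * 1) / p = Real.log d / (p * a) := by
    field_simp
  rw [h2] at h1
  refine ge_of_tendsto h1 ?_
  have h3 : Ioo (0:ℝ) 1 ∈ 𝓝[<] (1:ℝ) := Ioo_mem_nhdsLT one_pos
  filter_upwards [h3] with t ht
  have ht0 := ht.1
  have ht1 := ht.2
  have hκ : 0 < Real.log d / (a * t) := by positivity
  refine (dimH_mono ?_).trans (dim_big hd hp hψ hκ)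
  rintro c ⟨hc1, hc2⟩
  refine ⟨hc1, big_of_area hd hψ (ren_mem hp hc1) hκ (a := a) ?_ hc2⟩
  rw [div_div_eq_mul_div, div_lt_iff₀ hlogd]
  nlinarith [mul_pos ha hlogd]

/-- **Infinitely renormalizable parameters with exponential escape of the area.** -/
theorem dim_area_inf (hd : 2 ≤ d) :
    dimH {c | {p : ℕ | Ren d c p}.Infinite ∧ ∃ a : ℝ, 0 < a ∧
      ∃ᶠ n : ℕ in atTop, area d c n ≤ Real.exp (-(a * n))} = 0 := by
  obtain ⟨β, hβ⟩ := exists_beta (d := d) hd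
  have hψ := exteriorMap_of_beta hβ
  have hdR : (1 : ℝ) < d := by exact_mod_cast (by omega : 1 < d)
  have hlogd : 0 < Real.log d := Real.log_pos hdR
  apply dim_inf hd hψ
  rintro c ⟨h1, a, ha, h2⟩
  refine ⟨h1, 2 * Real.log d / a, by positivity, ?_⟩
  obtain ⟨p, hp, hp1⟩ : ∃ p, Ren d c p ∧ 1 ≤ p := by
    obtain ⟨p, hp, hp0⟩ := h1.exists_gt 0
    exact ⟨p, hp, hp0⟩
  refine big_of_area hd hψ (ren_mem hp1 hp) (by positivity) (a := a) ?_ h2
  rw [div_div_eq_mul_div, div_lt_iff₀ (by positivity)]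
  nlinarith [mul_pos ha hlogd]

end Pool.Agent.R721.Fat
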