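import Pool.Agent.R721.Fat.A
import Pool.Agent.R240.Res3
import Pool.Agent.R240.Close

set_option autoImplicit false

/-! # Returns of the critical orbit, and local connectivity -/

namespace Pool.Agent.R721.Fat

open Complex Filter Topology Set Metric MeasureTheory Pool.Agent.H713R2 N62a1eb23
open Pool.Agent.H712R2 (P fc)
open Pool.Agent.Y736.RN
open Pool.Agent.R240.Loc Pool.Agent.R240.Slim

variable {d : ℕ} {ψ : ℂ → ℂ} {c : ℂ}

/-- the base of the closing lemma -/
noncomputable def BB (d : ℕ) : ℝ := 48 * Pool.Agent.R240.Trans.AA d ^ 2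

theorem BB_one (hd : 2 ≤ d) : 1 ≤ BB d := by
  have := Pool.Agent.R240.Trans.AA_one hd
  unfold BB
  nlinarith

/-- a linear function is smaller than an exponential one -/
theorem ev_lin (C K δ : ℝ) (hδ : 0 < δ) :
    ∀ᶠ n : ℕ in atTop, C * (1 + K * n) < Real.exp (δ * n) := by
  have h1 : Tendsto (fun x : ℝ => Real.exp x / x ^ 1) atTop atTop := Real.tendsto_exp_div_pow_atTop 1
  have h2 : Tendsto (fun n : ℕ => δ * (n:ℝ)) atTop atTop :=
    tendsto_natCast_atTop_atTop.const_mul_atTop hδ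
  have h3 := (h1.comp h2).eventually_gt_atTop ((|C| * (1 + |K|)) / δ)
  filter_upwards [h3, eventually_ge_atTop 1] with n hn hn1
  have hn0 : (1:ℝ) ≤ n := by exact_mod_cast hn1
  have hx : 0 < δ * n := by positivity
  simp only [Function.comp_apply, pow_one] at hn
  rw [lt_div_iff₀ hx] at hn
  have h4 : |C| * (1 + |K|) / δ * (δ * n) = |C| * (1 + |K|) * n := by
    field_simp
  rw [h4] at hn
  refine lt_of_le_of_lt ?_ hn
  have h5 : C * (1 + K * n) ≤ |C| * |1 + K * n| := by
    rw [← abs_mul]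
    exact le_abs_self _
  have h6 : |1 + K * n| ≤ (1 + |K|) * n := by
    calc |1 + K * n| ≤ |(1:ℝ)| + |K * n| := abs_add_le _ _
      _ = 1 + |K| * n := by rw [abs_one, abs_mul, Nat.abs_cast]
      _ ≤ (1 + |K|) * n := by linarith
  calc C * (1 + K * n) ≤ |C| * |1 + K * n| := h5
    _ ≤ |C| * ((1 + |K|) * n) := mul_le_mul_of_nonneg_left h6 (abs_nonneg _)
    _ = |C| * (1 + |K|) * n := by ring

/-- **Close returns of the critical orbit are close to superattracting parameters.** -/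
theorem return_lower (hd : 2 ≤ d) (hc : c ∈ multibrotSet d) {X K : ℝ}
    (h : ∀ᶠ n : ℕ in atTop, ∀ a : ℂ, P d n a = 0 → Real.exp (-(X * n)) < ‖a - c‖)
    (hK0 : 0 ≤ K) (hK : X + Real.log (BB d) < K) :
    ∀ᶠ n : ℕ in atTop, Real.exp (-(K * n)) < ‖P d n c‖ := by
  have hB1 := BB_one hd
  have hB0 : 0 < BB d := by linarith
  obtain ⟨C, hC⟩ : ∃ C, C = 16 * Pool.Agent.R240.KN + 2 := ⟨_, rfl⟩
  have hCpos : 0 < C := by
    have := Pool.Agent.R240.KN_pos
    rw [hC]; linarith
  filter_upwards [h, ev_lin C K (K - X - Real.log (BB d)) (by linarith), eventually_ge_atTop 1]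
    with n h1 h2 hn
  by_contra hcon
  rw [not_lt] at hcon
  obtain ⟨a, ha1, ha2⟩ := Pool.Agent.R240.Trans.closing hd hc hn
  have h3 := (h1 a ha1).trans_le ha2
  obtain ⟨x, hx⟩ : ∃ x, x = ‖P d n c‖ := ⟨_, rfl⟩
  have hx0 : 0 ≤ x := by rw [hx]; exact norm_nonneg _
  rw [← hx] at h3 hcon
  obtain ⟨y, hy⟩ : ∃ y, y = Real.exp (-(K * n)) := ⟨_, rfl⟩
  have hKn : 0 ≤ K * n := by positivity
  have hy1 : y ≤ 1 := by
    rw [hy]
    exact Real.exp_le_one_iff.2 (by linarith)
  rw [← hy] at hcon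
  have h4 := Pool.Agent.R240.Trans.xl_mono hx0 hcon hy1
  have h5 : |Real.log y| = K * n := by
    rw [hy, Real.log_exp, abs_neg, abs_of_nonneg hKn]
  rw [h5] at h4
  have h6 : C * (BB d) ^ n * (x * (1 + |Real.log x|)) ≤ C * (BB d) ^ n * (y * (1 + K * n)) :=
    mul_le_mul_of_nonneg_left h4 (by positivity)
  have h7 : Real.exp (-(X * n)) < C * (BB d) ^ n * (y * (1 + K * n)) := by
    refine lt_of_lt_of_le ?_ h6
    rw [hC]
    exact h3
  have h8 : (BB d) ^ n = Real.exp (Real.log (BB d) * n) := by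
    rw [Real.exp_mul, Real.exp_log hB0, Real.rpow_natCast]
  have h9 : C * (BB d) ^ n * (y * (1 + K * n)) =
      (C * (1 + K * n)) * Real.exp (Real.log (BB d) * n - K * n) := by
    rw [h8, hy, sub_eq_add_neg, Real.exp_add]
    ring
  rw [h9] at h7
  have h10 : (C * (1 + K * n)) * Real.exp (Real.log (BB d) * n - K * n) <
      Real.exp ((K - X - Real.log (BB d)) * n) * Real.exp (Real.log (BB d) * n - K * n) :=
    mul_lt_mul_of_pos_right h2 (Real.exp_pos _)
  rw [← Real.exp_add] at h10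
  have h11 : (K - X - Real.log (BB d)) * n + (Real.log (BB d) * n - K * n) = -(X * n) := by ring
  rw [h11] at h10
  linarith

/-- slow escape of the area for every period of renormalization, and no superexponentially close
returns of the critical orbit -/
def TameAt (d : ℕ) (K : ℝ) (c : ℂ) : Prop :=
  (∀ᶠ n : ℕ in atTop, Real.exp (-(K * n)) < ‖P d n c‖) ∧
  ∀ p : ℕ, 1 ≤ p → (p = 1 ∨ Ren d c p) → ∀ a : ℝ, Real.log d / p < a →
    ∀ᶠ n : ℕ in atTop, Real.exp (-(a * n)) < area d c n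

/-- almost every circle misses the parameters with large Green's function -/
theorem ae_notbig (hd : 2 ≤ d) (hψ : IsExteriorMap (multibrotSet d) ψ) (p₀ : ℂ) :
    ∀ᵐ s : ℝ, ∀ (p : ℕ) (q : ℚ), 1 ≤ p → 0 < q → (q : ℝ) < p →
      ∀ c : ℂ, dist c p₀ = s → ¬ (Ren d c p ∧ Big ψ q c) := by
  have h1 : ∀ (p : ℕ) (q : ℚ), 1 ≤ p → 0 < q → (q : ℝ) < p →
      ∀ᵐ s : ℝ, ∀ c : ℂ, dist c p₀ = s → ¬ (Ren d c p ∧ Big ψ q c) := by
    intro p q hp hq0 hq
    have hpR : (0 : ℝ) < p := by exact_mod_cast hp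
    have h2 : dimH {c | Ren d c p ∧ Big ψ q c} < 1 := by
      refine (dim_big hd hp hψ (by exact_mod_cast hq0)).trans_lt ?_
      rw [← ENNReal.ofReal_one, ENNReal.ofReal_lt_ofReal_iff one_pos, div_lt_one hpR]
      exact hq
    have h3 := circles_null h2 p₀
    have h4 : ∀ᵐ s : ℝ, s ∉ (fun z => dist z p₀) '' {c | Ren d c p ∧ Big ψ q c} :=
      measure_eq_zero_iff_ae_notMem.1 h3
    filter_upwards [h4] with s hs c hc hcon
    exact hs ⟨c, hcon, hc⟩
  rw [ae_all_iff]; intro p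
  rw [ae_all_iff]; intro q
  by_cases hp : 1 ≤ p
  · by_cases hq0 : 0 < q
    · by_cases hq : (q : ℝ) < p
      · filter_upwards [h1 p q hp hq0 hq] with s hs _ _ _
        exact hs
      · exact ae_of_all _ fun s _ _ h => absurd h hq
    · exact ae_of_all _ fun s _ h => absurd h hq0
  · exact ae_of_all _ fun s h => absurd h hp

/-- almost every circle misses the boundary parameters which are not tame -/
theorem ae_tame (hd : 2 ≤ d) {K : ℝ} (hK : Real.log d + Real.log (BB d) < K) (p₀ : ℂ) :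
    ∀ᵐ s : ℝ, ∀ c ∈ frontier (multibrotSet d), dist c p₀ = s → TameAt d K c := by
  obtain ⟨β, hβ⟩ := exists_beta (d := d) hd
  have hψ := exteriorMap_of_beta hβ
  have hdR : (1 : ℝ) < d := by exact_mod_cast (by omega : 1 < d)
  have hlogd : 0 < Real.log d := Real.log_pos hdR
  have hlogB : 0 ≤ Real.log (BB d) := Real.log_nonneg (BB_one hd)
  filter_upwards [ae_notbig hd hψ p₀, Pool.Agent.R240.Res.ae_nonres hd p₀] with s h1 h2 c hc hcs
  have hcM : c ∈ multibrotSet d :=
    (Pool.Agent.H712R2.isCompact_multibrot hd).isClosed.frontier_subset hc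
  constructor
  · obtain ⟨X, hX1, hX2⟩ : ∃ X, Real.log d < X ∧ X < K - Real.log (BB d) :=
      exists_between (by linarith)
    have h3 := h2 c hc hcs 1 le_rfl (Or.inl rfl) X (by simpa using hX1)
    exact return_lower hd hcM (Filter.Eventually.mono h3 fun n hn => hn.1) (by linarith)
      (by linarith)
  · intro p hp hr a ha
    have hp0 : (0 : ℝ) < p := by exact_mod_cast hp
    have ha0 : 0 < a := lt_trans (by positivity) ha
    have hr' : Ren d c p := by
      rcases hr with rfl | hr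
      · exact ren_one hd hcM
      · exact hr
    have h3 : Real.log d / a < p := by
      rw [div_lt_iff₀ ha0]
      rw [div_lt_iff₀ hp0] at ha
      linarith
    obtain ⟨q, hq1, hq2⟩ := exists_rat_btwn h3
    have hq0 : (0:ℝ) < q := lt_trans (by positivity) hq1
    have h5 : ¬ Big (fun z => z * β z⁻¹) q c := fun hB =>
      h1 p q hp (by exact_mod_cast hq0) hq2 c hcs ⟨hr', hB⟩
    refine area_lower hd hψ hcM hq0 ?_ h5
    rw [div_lt_iff₀ hq0]
    rw [div_lt_iff₀ ha0] at hq1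
    linarith

/-- **Spreading to tame parameters.** -/
theorem spread_tame (hd : 2 ≤ d) {K : ℝ} (hK : Real.log d + Real.log (BB d) < K) {p₀ : ℂ}
    (h : ¬ CIK (multibrotSet d) p₀) :
    ∃ ε : ℝ, 0 < ε ∧ ∀ᵐ s : ℝ, 0 < s → s < ε →
      ∃ c ∈ frontier (multibrotSet d), dist c p₀ = s ∧ TameAt d K c ∧
        ¬ CIK (multibrotSet d) c := by
  obtain ⟨ε, hε, hs⟩ := spread (Pool.Agent.H712R2.isCompact_multibrot hd)
    (Pool.Agent.H712R2.isConnected_multibrot hd).isPreconnected h
  refine ⟨ε, hε, ?_⟩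
  filter_upwards [ae_tame hd hK p₀] with s h1 hs0 hsε
  obtain ⟨z, hz, hzs, hzc⟩ := hs s hs0 hsε
  have hzf : z ∈ frontier (multibrotSet d) :=
    ⟨subset_closure hz, fun hi => hzc (cik_interior hi)⟩
  exact ⟨z, hzf, hzs, h1 z hzf hzs, hzc⟩

/-- local connectivity at one point is decided at the tame parameters nearby -/
theorem local_tame (hd : 2 ≤ d) {K : ℝ} (hK : Real.log d + Real.log (BB d) < K) {p : ℂ} {ε : ℝ}
    (hε : 0 < ε) (h : ∀ c ∈ frontier (multibrotSet d), c ≠ p → dist c p < ε →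
      TameAt d K c → CIK (multibrotSet d) c) : CIK (multibrotSet d) p := by
  by_contra hcon
  obtain ⟨ε', hε', h1⟩ := spread_tame hd hK hcon
  have h3 : ∃ s : ℝ, s ∈ Ioo 0 (min ε ε') ∧ (0 < s → s < ε' →
      ∃ c ∈ frontier (multibrotSet d), dist c p = s ∧ TameAt d K c ∧
        ¬ CIK (multibrotSet d) c) := by
    by_contra h4
    push Not at h4
    have h5 : volume (Ioo 0 (min ε ε')) = 0 := by
      apply measure_mono_null _ h1
      intro s hs hcon
      obtain ⟨h6, h7, h8⟩ := h4 s hs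
      obtain ⟨c, hc1, hc2, hc3, hc4⟩ := hcon h6 h7
      exact hc4 (h8 c hc1 hc2 hc3)
    rw [Real.volume_Ioo, ENNReal.ofReal_eq_zero] at h5
    have := lt_min hε hε'
    linarith
  obtain ⟨s, hs, h4⟩ := h3
  obtain ⟨c, hc1, hcs, hc3, hc4⟩ := h4 hs.1 (hs.2.trans_le (min_le_right _ _))
  refine hc4 (h c hc1 ?_ ?_ hc3)
  · rintro rfl
    rw [dist_self] at hcs
    linarith [hs.1]
  · rw [hcs]
    exact hs.2.trans_le (min_le_left _ _)

/-- the constant in degree two -/
theorem const_two : Real.log ((2:ℕ):ℝ) + Real.log (BB 2) < 50 := by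
  have h1 : BB 2 ≤ 2 ^ 67 := by
    unfold BB Pool.Agent.R240.Trans.AA
    norm_num
  have h2 : Real.log (BB 2) ≤ 67 * Real.log 2 := by
    have := Real.log_le_log (lt_of_lt_of_le one_pos (BB_one (le_refl 2))) h1
    rw [Real.log_pow] at this
    push_cast at this
    exact this
  have h3 := Real.log_two_lt_d9
  push_cast at h2 ⊢
  linarith

end Pool.Agent.R721.Fat
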