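import Pool.Agent.R721.Fat.B
import Pool.Agent.R240.Res4

set_option autoImplicit false

/-! # Dimension of the exceptional renormalizable parameters -/

namespace Pool.Agent.R721.Fat

open Complex Filter Topology Set Metric MeasureTheory Pool.Agent.H713R2 N62a1eb23
open Pool.Agent.H712R2 (P fc)
open Pool.Agent.Y736.RN
open Pool.Agent.R240.Res (RenC Near)

variable {d : ℕ} {c : ℂ}

theorem near_of_return (hd : 2 ≤ d) (hc : c ∈ multibrotSet d) {X K : ℝ} (hX : 0 ≤ X)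
    (hK : X + Real.log (BB d) < K)
    (h : ∃ᶠ n : ℕ in atTop, ‖P d n c‖ ≤ Real.exp (-(K * n))) : Near d X c := by
  have hlogB : 0 ≤ Real.log (BB d) := Real.log_nonneg (BB_one hd)
  by_contra hcon
  unfold Near at hcon
  rw [not_frequently] at hcon
  have h1 : ∀ᶠ n : ℕ in atTop, ∀ a : ℂ, P d n a = 0 → Real.exp (-(X * n)) < ‖a - c‖ := by
    filter_upwards [hcon] with n hn a ha
    by_contra h2
    exact hn ⟨a, ha, not_lt.1 h2⟩
  obtain ⟨n, h2, h3⟩ := (h.and_eventually (return_lower hd hc h1 (by linarith) hK)).exists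
  linarith

/-- exceptional times -/
def Exc (d : ℕ) (K a : ℝ) (c : ℂ) (n : ℕ) : Prop :=
  area d c n ≤ Real.exp (-(a * n)) ∨ ‖P d n c‖ ≤ Real.exp (-((K + a) * n))

theorem dim_both (hd : 2 ≤ d) {K : ℝ} (hK : Real.log d + Real.log (BB d) < K) {p : ℕ}
    (hp : 1 ≤ p) {a : ℝ} (ha : 0 < a) :
    dimH {c | RenC d c p ∧ ∃ᶠ n : ℕ in atTop, Exc d K a c n} ≤
      ENNReal.ofReal (Real.log d / (p * a)) := by
  have hdR : (1 : ℝ) < d := by exact_mod_cast (by omega : 1 < d)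
  have hlogd : 0 < Real.log d := Real.log_pos hdR
  have hsub : {c | RenC d c p ∧ ∃ᶠ n : ℕ in atTop, Exc d K a c n} ⊆
      {c | Ren d c p ∧ ∃ᶠ n : ℕ in atTop, area d c n ≤ Real.exp (-(a * n))} ∪
      {c | RenC d c p ∧ Near d a c} := by
    rintro c ⟨h1, h2⟩
    have hcM : c ∈ multibrotSet d := ren_mem hp h1.ren
    unfold Exc at h2
    rw [frequently_or_distrib] at h2
    rcases h2 with h2 | h2
    · exact Or.inl ⟨h1.ren, h2⟩
    · exact Or.inr ⟨h1, near_of_return hd hcM ha.le (by linarith) h2⟩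
  refine (dimH_mono hsub).trans ?_
  rw [dimH_union]
  exact max_le (dim_area hd hp ha) (Pool.Agent.R240.Res.dim_near' hd hp ha)

theorem dim_both_inf (hd : 2 ≤ d) {K : ℝ} (hK : Real.log d + Real.log (BB d) < K) :
    dimH {c | {p : ℕ | RenC d c p}.Infinite ∧
      ∃ a : ℝ, 0 < a ∧ ∃ᶠ n : ℕ in atTop, Exc d K a c n} = 0 := by
  have hdR : (1 : ℝ) < d := by exact_mod_cast (by omega : 1 < d)
  have hlogd : 0 < Real.log d := Real.log_pos hdR
  have hsub : {c | {p : ℕ | RenC d c p}.Infinite ∧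
      ∃ a : ℝ, 0 < a ∧ ∃ᶠ n : ℕ in atTop, Exc d K a c n} ⊆
      {c | {p : ℕ | Ren d c p}.Infinite ∧ ∃ a : ℝ, 0 < a ∧
        ∃ᶠ n : ℕ in atTop, area d c n ≤ Real.exp (-(a * n))} ∪
      {c | {p : ℕ | RenC d c p}.Infinite ∧ ∃ X : ℝ, 0 < X ∧ Near d X c} := by
    rintro c ⟨h1, a, ha, h2⟩
    obtain ⟨p, hp, hp0⟩ := h1.exists_gt 0
    have hp' : RenC d c p := hp
    have hcM : c ∈ multibrotSet d := ren_mem hp0 hp'.ren
    unfold Exc at h2
    rw [frequently_or_distrib] at h2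
    rcases h2 with h2 | h2
    · exact Or.inl ⟨h1.mono fun q hq => RenC.ren hq, a, ha, h2⟩
    · exact Or.inr ⟨h1, a, ha, near_of_return hd hcM ha.le (by linarith) h2⟩
  apply le_antisymm _ bot_le
  refine (dimH_mono hsub).trans ?_
  rw [dimH_union]
  exact max_le (dim_area_inf hd).le (Pool.Agent.R240.Res.dim_near_inf' hd).le

end Pool.Agent.R721.Fat
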